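import Pool.Agent.Helper89.A8.Stmts
import Pool.Agent.Helper89.A8.GTools

/-!
# Block A8-G07 (MP_93c1ff): covers by local subgroups, decomposition of the kernel

Proof: helper11.
-/

set_option autoImplicit false

namespace Pool.Agent.A8

theorem cov_exists_ne (a : Ty) : ∃ m : Md a, m ≠ 0 := by
  cases a
  · exact ⟨vE0, by decide⟩
  · exact ⟨dE0, by decide⟩
  · exact ⟨lE01, by decide⟩

theorem bCOV (h : S_TYPES) : S_COV := by
  intro G _ _ π hπ X T hX hT hXK hXT
  obtain ⟨D, hD⟩ := Set.Finite.exists_minimal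
    (s := {D : Subgroup G | D.Normal ∧ D ≤ X ∧ ¬ D ≤ T}) (Set.toFinite _)
    ⟨X, hX, le_rfl, hXT⟩
  obtain ⟨⟨hDn, hDX, hDT⟩, hmin⟩ := hD
  have hW : ∀ W : Subgroup G, W.Normal → W ≤ D → W ≠ D → W ≤ T := by
    intro W hWn hWD hne
    by_contra hWT
    exact hne (le_antisymm hWD (hmin ⟨hWn, hWD.trans hDX, hWT⟩ hWD))
  refine ⟨D, hDn, hDX, hDT, hW, ?_⟩
  have hn : (D ⊓ T).Normal := by
    have := hDn
    have := hT
    infer_instance
  have hlt : D ⊓ T < D := by
    refine lt_of_le_of_ne inf_le_left fun he => hDT ?_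
    rw [← he]
    exact inf_le_right
  rcases h G π hπ D (D ⊓ T) hDn (hDX.trans hXK) hn hlt
    (fun W hWn hWD hne => le_inf hWD (hW W hWn hWD hne)) with ⟨a, φ, hL⟩ | hZ
  · left
    refine ⟨a, φ, hL, fun x hx => ⟨fun hx0 => ?_, fun hxT => ?_⟩⟩
    · have hle : hL.toHomOn.kerG ≤ T := by
        refine hW _ (hL.toHomOn.kerG_normal hDn) hL.toHomOn.kerG_le fun he => ?_
        obtain ⟨m, hm⟩ := cov_exists_ne a
        obtain ⟨y, hy, hym⟩ := hL.surj m
        rw [← he] at hy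
        exact hm (hym ▸ hy.2)
      exact hle ⟨hx, hx0⟩
    · by_contra hne
      exact hlt.ne (hL.eq_of hn inf_le_left ⟨hx, hxT⟩ hne)
  · exact Or.inr hZ

theorem bDEC (h : S_COV) : S_DEC := by
  intro G _ _ π hπ
  have := Kt_normal π .v
  have := Kt_normal π .d
  have := Kt_normal π .l
  have := ZK_normal π
  refine le_antisymm ?_ (sup_le (sup_le (sup_le (Kt_le π _) (Kt_le π _)) (Kt_le π _)) (ZK_le π))
  by_contra hcon
  obtain ⟨D, -, -, hDT, -, hD⟩ := h G π hπ π.ker (Kt π .v ⊔ Kt π .d ⊔ Kt π .l ⊔ ZK π)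
    (ker_normal π) inferInstance le_rfl hcon
  apply hDT
  rcases hD with ⟨a, φ, hL, -⟩ | hZ
  · refine hL.le_Kt.trans ?_
    cases a
    · exact le_sup_left.trans (le_sup_left.trans le_sup_left)
    · exact le_sup_right.trans (le_sup_left.trans le_sup_left)
    · exact le_sup_right.trans le_sup_left
  · exact hZ.trans le_sup_right

end Pool.Agent.A8
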