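import Pool.Agent.Helper89.A8.StmtsMT
import Pool.Agent.Helper89.A8.MTools

/-!
# Block A8-M19a (MP_93c1ff): the structure theorem for pairings with values in the dual module

Proof: helper11 (scheme of helper89).
-/

set_option autoImplicit false

namespace Pool.Agent.A8

section ma
variable {X Y Z : Type*} [AddCommGroup X] [Module RG X] [AddCommGroup Y] [Module RG Y]
  [AddCommGroup Z] [Module RG Z] {p : X →+ Y →+ Z}

/-- the pairing made right perfect -/
noncomputable def maR (hp : Adm p) : X →+ (Y ⧸ kR hp ⊥) →+ Z :=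
  pcomp (kL hp ⊥).mkQ LinearMap.id
    (Submodule.quotEquivOfEqBot (⊥ : Submodule RG Z) rfl).toLinearMap (qp hp ⊥)

theorem maR_mk (hp : Adm p) (x : X) (y : Y) : maR hp x (Submodule.Quotient.mk y) = p x y := by
  rw [maR, pcomp_apply, LinearMap.id_apply, Submodule.mkQ_apply, qp_mk]
  exact Submodule.quotEquivOfEqBot_apply_mk _ _ _

theorem maR_adm (hp : Adm p) : Adm (maR hp) := pcomp_adm _ _ _ (qp_adm hp ⊥)

theorem maR_perfR (hp : Adm p) : PerfR (maR hp) := by
  intro y hy
  obtain ⟨y, rfl⟩ := Submodule.Quotient.mk_surjective _ y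
  rw [Submodule.Quotient.mk_eq_zero, mem_kR]
  intro x
  rw [Submodule.mem_bot, ← maR_mk hp]
  exact hy x

theorem maR_perfL (hp : Adm p) (h : PerfL p) : PerfL (maR hp) := by
  intro x hx
  apply h
  intro y
  rw [← maR_mk hp]
  exact hx _

/-- the pairing made left perfect -/
noncomputable def maL (hp : Adm p) : (X ⧸ kL hp ⊥) →+ Y →+ Z :=
  pcomp LinearMap.id (kR hp ⊥).mkQ
    (Submodule.quotEquivOfEqBot (⊥ : Submodule RG Z) rfl).toLinearMap (qp hp ⊥)

theorem maL_mk (hp : Adm p) (x : X) (y : Y) : maL hp (Submodule.Quotient.mk x) y = p x y := by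
  rw [maL, pcomp_apply, LinearMap.id_apply, Submodule.mkQ_apply, qp_mk]
  exact Submodule.quotEquivOfEqBot_apply_mk _ _ _

theorem maL_adm (hp : Adm p) : Adm (maL hp) := pcomp_adm _ _ _ (qp_adm hp ⊥)

theorem maL_perfL (hp : Adm p) : PerfL (maL hp) := by
  intro x hx
  obtain ⟨x, rfl⟩ := Submodule.Quotient.mk_surjective _ x
  rw [Submodule.Quotient.mk_eq_zero, mem_kL]
  intro y
  rw [Submodule.mem_bot, ← maL_mk hp]
  exact hx y

theorem maL_perfR (hp : Adm p) (h : PerfR p) : PerfR (maL hp) := by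
  intro y hy
  apply h
  intro x
  rw [← maL_mk hp]
  exact hy _

/-- the pairing made perfect on both sides -/
noncomputable def maB (hp : Adm p) : (X ⧸ kL hp ⊥) →+ (Y ⧸ kR hp ⊥) →+ Z :=
  pcomp LinearMap.id LinearMap.id
    (Submodule.quotEquivOfEqBot (⊥ : Submodule RG Z) rfl).toLinearMap (qp hp ⊥)

theorem maB_mk (hp : Adm p) (x : X) (y : Y) :
    maB hp (Submodule.Quotient.mk x) (Submodule.Quotient.mk y) = p x y := by
  rw [maB, pcomp_apply, LinearMap.id_apply, LinearMap.id_apply, qp_mk]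
  exact Submodule.quotEquivOfEqBot_apply_mk _ _ _

theorem maB_adm (hp : Adm p) : Adm (maB hp) := pcomp_adm _ _ _ (qp_adm hp ⊥)

theorem maB_perfL (hp : Adm p) : PerfL (maB hp) := by
  intro x hx
  obtain ⟨x, rfl⟩ := Submodule.Quotient.mk_surjective _ x
  rw [Submodule.Quotient.mk_eq_zero, mem_kL]
  intro y
  rw [Submodule.mem_bot, ← maB_mk hp]
  exact hx _

theorem maB_perfR (hp : Adm p) : PerfR (maB hp) := by
  intro y hy
  obtain ⟨y, rfl⟩ := Submodule.Quotient.mk_surjective _ y
  rw [Submodule.Quotient.mk_eq_zero, mem_kR]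
  intro x
  rw [Submodule.mem_bot, ← maB_mk hp]
  exact hy _

theorem ma_exists_simple (X : Type*) [AddCommGroup X] [Module RG X] [Finite X] [Nontrivial X] :
    ∃ A : Submodule RG X, IsSimpleModule RG A := by
  have : Finite (Submodule RG X) :=
    Finite.of_injective (fun N : Submodule RG X => (N : Set X)) SetLike.coe_injective
  obtain ⟨A, hA, -⟩ := (eq_bot_or_exists_atom_le (⊤ : Submodule RG X)).resolve_left
    (by
      intro h
      obtain ⟨x, hx⟩ := exists_ne (0 : X)
      apply hx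
      have : x ∈ (⊤ : Submodule RG X) := Submodule.mem_top
      rw [h] at this
      exact (Submodule.mem_bot _).1 this)
  exact ⟨A, isSimpleModule_iff_isAtom.2 hA⟩

end ma

/-- a local nonsimple module with head `V` does not split -/
theorem ma_nosplit {X : Type*} [AddCommGroup X] [Module RG X] (q : X →ₗ[RG] MV)
    (hloc : ∀ P : Submodule RG X, P ≠ ⊤ → P ≤ LinearMap.ker q) (hne : LinearMap.ker q ≠ ⊥)
    (s : MV →ₗ[RG] X) (hs : ∀ m, q (s m) = m) : False := by
  have h1 : LinearMap.range s = ⊤ := by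
    by_contra h
    have h2 := hloc _ h
    have h3 : q (s vE0) = 0 := h2 ⟨vE0, rfl⟩
    rw [hs] at h3
    exact absurd h3 (by decide)
  apply hne
  rw [eq_bot_iff]
  intro x hx
  have h2 : x ∈ LinearMap.range s := by rw [h1]; exact Submodule.mem_top
  obtain ⟨m, rfl⟩ := h2
  have h3 : q (s m) = 0 := hx
  rw [hs] at h3
  rw [h3, map_zero]
  exact Submodule.zero_mem _

/-- the transvections -/
theorem ma_eta (u v w : V4) : ∃ η : V4, η ≠ 0 ∧ ev η u = 0 ∧ ev η v = 0 ∧ ev η w = 0 := by
  obtain ⟨a, b, hab, h⟩ := Fintype.exists_ne_map_eq_of_card_lt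
    (fun η : V4 => ((ev η u, ev η v, ev η w) : ZMod 2 × ZMod 2 × ZMod 2)) (by decide)
  have h1 := (Prod.ext_iff.1 h).1
  have h2 := (Prod.ext_iff.1 (Prod.ext_iff.1 h).2).1
  have h3 := (Prod.ext_iff.1 (Prod.ext_iff.1 h).2).2
  refine ⟨a - b, sub_ne_zero.2 hab, ?_, ?_, ?_⟩
  · simp only [ev, sub_dotProduct] at h1 ⊢
    rw [h1, sub_self]
  · simp only [ev, sub_dotProduct] at h2 ⊢
    rw [h2, sub_self]
  · simp only [ev, sub_dotProduct] at h3 ⊢
    rw [h3, sub_self]

open Matrix in
theorem ma_tv_sq (u η : V4) (h : ev η u = 0) :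
    (1 + vecMulVec u η : M4) * (1 + vecMulVec u η) = 1 := by
  have h0 : vecMulVec u η * vecMulVec u η = 0 := by
    rw [Matrix.vecMulVec_mul_vecMulVec]
    rw [show η ⬝ᵥ u = 0 from h]
    ext i j
    simp [vecMulVec_apply]
  have h1 : vecMulVec u η + vecMulVec u η = (0 : M4) := by
    ext i j
    exact zadd _
  rw [Matrix.mul_add, Matrix.add_mul, Matrix.add_mul, Matrix.mul_one, Matrix.mul_one,
    Matrix.one_mul, h0, add_zero, add_assoc, h1, add_zero]

/-- the transvection `x ↦ x + η(x) u` -/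
def maT (u η : V4) (h : ev η u = 0) : Gam :=
  mkG (1 + Matrix.vecMulVec u η) (1 + Matrix.vecMulVec u η) (ma_tv_sq u η h) (ma_tv_sq u η h)

open Matrix in
theorem maT_V (u η : V4) (h : ev η u = 0) (v : MV) (hv : ev η v = 0) :
    act (maT u η h) v = v := by
  rw [act_MV]
  change (1 + vecMulVec u η : M4) *ᵥ v = v
  rw [Matrix.add_mulVec, Matrix.one_mulVec, Matrix.vecMulVec_mulVec]
  rw [show η ⬝ᵥ v = 0 from hv]
  simp

open Matrix in
theorem maT_D (u η : V4) (h : ev η u = 0) (x : MD) :
    act (maT u η h) x = (fun i => x i + ev x u * η i : V4) := by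
  rw [act_MD]
  change (1 + vecMulVec u η : M4)ᵀ *ᵥ x = _
  rw [Matrix.transpose_add, Matrix.transpose_one, Matrix.transpose_vecMulVec, Matrix.add_mulVec,
    Matrix.one_mulVec, Matrix.vecMulVec_mulVec]
  have e : ∀ y : V4, u ⬝ᵥ y = ev y u := fun y => dotProduct_comm u y
  funext i
  change x i + _ = _
  rw [e]
  simp [mul_comm]

/-- the pointwise stabiliser of two vectors fixes no nonzero functional -/
theorem ma_fix (x : MD) (v w : MV) (h : ∀ g : Gam, act g v = v → act g w = w → act g x = x) :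
    x = 0 := by
  have key : ∀ u : V4, ev x u = 0 := by
    intro u
    obtain ⟨η, hη, h1, h2, h3⟩ := ma_eta u v w
    have h4 := h (maT u η h1) (maT_V u η h1 v h2) (maT_V u η h1 w h3)
    rw [maT_D u η h1 x] at h4
    obtain ⟨i, hi⟩ := Function.ne_iff.1 hη
    have h5 : x i + ev x u * η i = x i := congrFun h4 i
    have h6 : ev x u * η i = 0 := by
      have h7 : x i + ev x u * η i = x i + 0 := by rw [add_zero]; exact h5
      exact add_left_cancel h7
    rcases mul_eq_zero.1 h6 with h6 | h6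
    · exact h6
    · exact absurd h6 hi
  have h0 : ∀ i, x i = 0 := by
    intro i
    have h1 := key (Pi.single i 1)
    have h2 : ev x (Pi.single i 1) = x i := by
      rw [ev]
      exact (dotProduct_single _ _ _).trans (mul_one _)
    rw [← h2, h1]
  exact funext h0

/-- both factors of a left perfect pairing with a simple module -/
theorem ma_uc (h1 : S_UNIV) (h2 : S_UC) (h9 : S_F15) {A T : Type} [AddCommGroup A] [Module RG A]
    [Finite A] [Nontrivial A] [AddCommGroup T] [Module RG T] [Finite T]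
    (hT : IsSimpleModule RG T) (fA : Free15 A) (fT : Free15 T) (c : Ty) (hc : IsSimpleModule RG (Md c))
    (p : A →+ T →+ Md c) (hp : Adm p) (hL : PerfL p) :
    ∃ (a b : Ty) (m : Md a → Md b → Md c), Std3 a b c m ∧ Nonempty (A ≃ₗ[RG] Md a) ∧
      Nonempty (T ≃ₗ[RG] Md b) := by
  obtain ⟨B, hB⟩ := ma_exists_simple A
  have hp1 := pcomp_adm B.subtype (LinearMap.id : T →ₗ[RG] T) (LinearMap.id : Md c →ₗ[RG] Md c) hp
  have hne : ∃ x y, pcomp B.subtype (LinearMap.id : T →ₗ[RG] T)
      (LinearMap.id : Md c →ₗ[RG] Md c) p x y ≠ 0 := by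
    have hnt : Nontrivial B := IsSimpleModule.nontrivial RG B
    obtain ⟨x, hx⟩ := exists_ne (0 : B)
    by_contra hcon
    push Not at hcon
    apply hx
    apply Subtype.ext
    apply hL
    intro y
    exact hcon x y
  obtain ⟨-, b, -, -, -, β, -, -, -⟩ := h1 B T (Md c) hB hT hc (fA.sub B) fT (h9 c) _ hp1 hne
  have hp2 := pcomp_adm (LinearMap.id : A →ₗ[RG] A) (β.symm : Md b →ₗ[RG] T)
    (LinearMap.id : Md c →ₗ[RG] Md c) hp
  obtain ⟨a, m, α, hm, -⟩ := h2 b c A _ hp2 (by
    intro x hx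
    apply hL
    intro y
    have := hx (β y)
    rw [pcomp_apply] at this
    simpa using this)
  exact ⟨a, b, m, hm, ⟨α⟩, ⟨β⟩⟩

theorem ma_uc' (h1 : S_UNIV) (h3 : S_UC') (h9 : S_F15) {A T : Type} [AddCommGroup A] [Module RG A]
    [Finite A] [AddCommGroup T] [Module RG T] [Finite T] [Nontrivial T]
    (hA : IsSimpleModule RG A) (fA : Free15 A) (fT : Free15 T) (c : Ty) (hc : IsSimpleModule RG (Md c))
    (p : A →+ T →+ Md c) (hp : Adm p) (hR : PerfR p) :
    ∃ (a b : Ty) (m : Md a → Md b → Md c), Std3 a b c m ∧ Nonempty (A ≃ₗ[RG] Md a) ∧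
      Nonempty (T ≃ₗ[RG] Md b) := by
  obtain ⟨B, hB⟩ := ma_exists_simple T
  have hp1 := pcomp_adm (LinearMap.id : A →ₗ[RG] A) B.subtype (LinearMap.id : Md c →ₗ[RG] Md c) hp
  have hne : ∃ x y, pcomp (LinearMap.id : A →ₗ[RG] A) B.subtype
      (LinearMap.id : Md c →ₗ[RG] Md c) p x y ≠ 0 := by
    have hnt : Nontrivial B := IsSimpleModule.nontrivial RG B
    obtain ⟨x, hx⟩ := exists_ne (0 : B)
    by_contra hcon
    push Not at hcon
    apply hx
    apply Subtype.ext
    apply hR
    intro y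
    exact hcon y x
  obtain ⟨a, -, -, -, α, -, -, -, -⟩ := h1 A B (Md c) hA hB hc fA (fT.sub B) (h9 c) _ hp1 hne
  have hp2 := pcomp_adm (α.symm : Md a →ₗ[RG] A) (LinearMap.id : T →ₗ[RG] T)
    (LinearMap.id : Md c →ₗ[RG] Md c) hp
  obtain ⟨b, m, β, hm, -⟩ := h3 a c T _ hp2 (by
    intro x hx
    apply hR
    intro y
    have := hx (α y)
    rw [pcomp_apply] at this
    simpa using this)
  exact ⟨a, b, m, hm, ⟨α⟩, ⟨β⟩⟩

/-- no isomorphism between different small modules -/
theorem ma_noiso (h8 : S_END) (h7 : S_SIM) {a b : Ty} (e : Md a ≃ₗ[RG] Md b) : a = b := by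
  rcases h8 a b e with h | ⟨h, -⟩
  · exfalso
    have := h7 a
    have hnt : Nontrivial (Md a) := IsSimpleModule.nontrivial RG (Md a)
    obtain ⟨x, hx⟩ := exists_ne (0 : Md a)
    apply hx
    apply e.injective
    rw [map_zero]
    exact h x
  · exact h

/-- the core: the configuration of two local modules is impossible -/
theorem ma_core (h1 : S_UNIV) (h2 : S_UC) (h3 : S_UC') (h5 : S_M3) (h6 : S_M4) (h7 : S_SIM)
    (h8 : S_END) (h9 : S_F15) {X Y : Type} [AddCommGroup X] [Module RG X] [Finite X]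
    [AddCommGroup Y] [Module RG Y] [Finite Y] (fX : Free15 X) (fY : Free15 Y)
    (p : X →+ Y →+ MD) (hp : Adm p) (hL : PerfL p) (hR : PerfR p)
    (q : X →ₗ[RG] MV) (hq : Function.Surjective q)
    (hloc : ∀ P : Submodule RG X, P ≠ ⊤ → P ≤ LinearMap.ker q) (hne : LinearMap.ker q ≠ ⊥)
    (hY : ∀ P : Submodule RG Y, (∃ x, q x = 0 ∧ ∃ y ∈ P, p x y ≠ 0) → P = ⊤) : False := by
  have hnt : Nontrivial (LinearMap.ker q) := Submodule.nontrivial_iff_ne_bot.2 hne
  -- the pairing of the radical with `Y`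
  have hp1 := pcomp_adm (LinearMap.ker q).subtype (LinearMap.id : Y →ₗ[RG] Y)
    (LinearMap.id : MD →ₗ[RG] MD) hp
  set p1 := pcomp (LinearMap.ker q).subtype (LinearMap.id : Y →ₗ[RG] Y)
    (LinearMap.id : MD →ₗ[RG] MD) p with hp1def
  have hp1v : ∀ x y, p1 x y = p x y := fun x y => rfl
  have hp1L : PerfL p1 := by
    intro x hx
    apply Subtype.ext
    apply hL
    intro y
    exact hx y
  have hRYmem : ∀ y, y ∈ kR hp1 ⊥ ↔ ∀ x, q x = 0 → p x y = 0 := by
    intro y
    rw [mem_kR]
    constructor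
    · intro h x hx
      exact (Submodule.mem_bot _).1 (h ⟨x, hx⟩)
    · intro h x
      exact (Submodule.mem_bot _).2 (h x x.2)
  have hco : IsCoatom (kR hp1 ⊥) := by
    constructor
    · intro htop
      obtain ⟨x, hx⟩ := exists_ne (0 : LinearMap.ker q)
      apply hx
      apply hp1L
      intro y
      have : y ∈ kR hp1 ⊥ := by rw [htop]; exact Submodule.mem_top
      exact (hRYmem y).1 this x x.2
    · intro P hP
      obtain ⟨y, hyP, hy⟩ := SetLike.exists_of_lt hP
      apply hY
      rw [hRYmem] at hy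
      push Not at hy
      obtain ⟨x, hx, hxy⟩ := hy
      exact ⟨x, hx, y, hyP, hxy⟩
  have hT : IsSimpleModule RG (Y ⧸ kR hp1 ⊥) := isSimpleModule_iff_isCoatom.2 hco
  have hfT : Finite (Y ⧸ kR hp1 ⊥) := Finite.of_surjective _ (Submodule.mkQ_surjective _)
  obtain ⟨a, b, m, hm, ⟨α⟩, ⟨β⟩⟩ := ma_uc h1 h2 h9 hT (fX.sub _) (fY.quot _) .d (h7 .d) (maR hp1)
    (maR_adm hp1) (maR_perfL hp1 hp1L)
  cases hm with
  | vl =>
    -- `rad X = V`
    obtain ⟨s, hs⟩ := h5 .v (by decide) X ((LinearMap.ker q).subtype.comp α.symm.toLinearMap) q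
      ((LinearMap.ker q).injective_subtype.comp α.symm.injective) hq (by
        intro x
        constructor
        · intro hx
          refine ⟨α ⟨x, hx⟩, ?_⟩
          change ((α.symm (α ⟨x, hx⟩) : LinearMap.ker q) : X) = x
          rw [LinearEquiv.symm_apply_apply]
        · rintro ⟨m, rfl⟩
          exact (α.symm m).2)
    exact ma_nosplit q hloc hne s hs
  | lv =>
    -- `rad X = L`, `Y / rad Y = V`
    have hqYs : Function.Surjective (β.toLinearMap.comp (kR hp1 ⊥).mkQ) :=
      β.surjective.comp (Submodule.mkQ_surjective _)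
    have hqY0 : ∀ y, β.toLinearMap.comp (kR hp1 ⊥).mkQ y = 0 ↔ ∀ x, q x = 0 → p x y = 0 := by
      intro y
      rw [← hRYmem, ← Submodule.Quotient.mk_eq_zero]
      exact LinearEquiv.map_eq_zero_iff β
    generalize hqYdef : β.toLinearMap.comp (kR hp1 ⊥).mkQ = qY at hqYs hqY0
    have hgX : Hg ML (LinearMap.ker q) := by
      intro x hx
      exact (LinearEquiv.map_eq_zero_iff α).1 (hx α.toLinearMap)
    have hgY : Hg ML (LinearMap.ker qY) := by
      by_cases hb : LinearMap.ker qY = ⊥
      · intro y hy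
        have h : (y : Y) ∈ (⊥ : Submodule RG Y) := hb ▸ y.2
        exact Subtype.ext ((Submodule.mem_bot _).1 h)
      · have hntY : Nontrivial (LinearMap.ker qY) := Submodule.nontrivial_iff_ne_bot.2 hb
        have hp4 := pcomp_adm (LinearMap.id : X →ₗ[RG] X) (LinearMap.ker qY).subtype
          (LinearMap.id : MD →ₗ[RG] MD) hp
        have hk : kL hp4 ⊥ = LinearMap.ker q := by
          apply le_antisymm
          · apply hloc
            intro htop
            apply hb
            rw [eq_bot_iff]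
            intro y hy
            rw [Submodule.mem_bot]
            apply hR
            intro x
            have : x ∈ kL hp4 ⊥ := by rw [htop]; exact Submodule.mem_top
            exact (Submodule.mem_bot _).1 (this ⟨y, hy⟩)
          · intro x hx y
            exact (Submodule.mem_bot _).2 ((hqY0 y).1 y.2 x hx)
        have e : (X ⧸ kL hp4 ⊥) ≃ₗ[RG] Md .v :=
          (Submodule.quotEquivOfEq _ _ hk).trans (q.quotKerEquivOfSurjective hq)
        have hsX : IsSimpleModule RG (X ⧸ kL hp4 ⊥) := by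
          have := h7 .v
          exact IsSimpleModule.congr e
        have hfX : Finite (X ⧸ kL hp4 ⊥) := Finite.of_surjective _ (Submodule.mkQ_surjective _)
        obtain ⟨a', b', m', hm', ⟨α'⟩, ⟨β'⟩⟩ := ma_uc' h1 h3 h9 hsX (fX.quot _) (fY.sub _) .d (h7 .d)
          (maL hp4) (maL_adm hp4) (maL_perfR hp4 (by
            intro y hy
            apply Subtype.ext
            apply hR
            intro x
            exact hy x))
        have ha' : Ty.v = a' := ma_noiso h8 h7 (e.symm.trans α')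
        cases hm' with
        | vl =>
          intro y hy
          exact (LinearEquiv.map_eq_zero_iff β').1 (hy β'.toLinearMap)
        | lv => exact absurd ha' (by decide)
    obtain ⟨sec, κ, hs1, hs2, hs3, hs4⟩ := h6 .v mvv Std3.vv X q hq hgX
    obtain ⟨sec', κ', ht1, ht2, -, -⟩ := h6 .v mvv Std3.vv Y qY hqYs hgY
    have hβ : ∀ v w, p (sec v) (sec' w) = 0 := by
      intro v w
      apply ma_fix _ v w
      intro g hv hw
      rw [← hp.equiv, ← hs2, ← ht2, hv, hw]
    have hκ1 : ∀ v v' w, p (κ (mvv v v')) (sec' w) = 0 := by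
      intro v v' w
      have h := hβ (v + v') w
      rw [hs4, map_add, map_add, AddMonoidHom.add_apply, AddMonoidHom.add_apply, hβ, hβ, zero_add,
        zero_add] at h
      exact h
    have hκ2 : ∀ l w, p (κ l) (sec' w) = 0 := by
      let S : Submodule RG ML := mkSub
        { carrier := {l | ∀ w, p (κ l) (sec' w) = 0}
          zero_mem' := fun w => by rw [map_zero, map_zero, AddMonoidHom.zero_apply]
          add_mem' := fun {a b} ha hb w => by
            rw [map_add, map_add, AddMonoidHom.add_apply, ha w, hb w, add_zero]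
          neg_mem' := fun {a} ha w => by
            rw [map_neg, map_neg, AddMonoidHom.neg_apply, ha w, neg_zero] }
        (fun g l hl w => by
          have h := hp.equiv g (κ l) (sec' (act g⁻¹ w))
          rw [hl, act_zero, ← ht2, act_act_inv, ← map_act] at h
          exact h)
      have hS : S = ⊤ := by
        have hsimp : IsSimpleModule RG ML := h7 .l
        refine (eq_bot_or_eq_top S).resolve_left fun hb => ?_
        have : mvv vE0 vE1 ∈ S := fun w => hκ1 vE0 vE1 w
        rw [hb, Submodule.mem_bot] at this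
        exact absurd this (by decide)
      intro l w
      have : l ∈ S := by rw [hS]; exact Submodule.mem_top
      exact this w
    have hκ3 : ∀ l, κ l = 0 := by
      intro l
      apply hL
      intro y
      have h1 : qY (y - sec' (qY y)) = 0 := by rw [map_sub, ht1, sub_self]
      have h2 := (hqY0 _).1 h1 (κ l) (hs3 l)
      rw [map_sub, hκ2, sub_zero] at h2
      exact h2
    exact ma_nosplit q hloc hne (mkLin (AddMonoidHom.mk' sec (fun a b => by
      rw [hs4, hκ3, add_zero])) (fun g x => hs2 g x)) hs1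

theorem bMTA (h1 : S_UNIV) (h2 : S_UC) (h3 : S_UC') (_h4 : S_GG) (h5 : S_M3) (h6 : S_M4)
    (h7 : S_SIM) (h8 : S_END) (h9 : S_F15) : S_MTA := by
  intro X Y _ _ _ _ _ _ fX fY hX hY p hp hL hR
  have hfinX : Finite (Submodule RG X) :=
    Finite.of_injective (fun N : Submodule RG X => (N : Set X)) SetLike.coe_injective
  have hfinY : Finite (Submodule RG Y) :=
    Finite.of_injective (fun N : Submodule RG Y => (N : Set Y)) SetLike.coe_injective
  -- simple submodules of `X`
  have step1 : ∀ A : Submodule RG X, IsSimpleModule RG A → Nonempty (A ≃ₗ[RG] MV) ∧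
      ∃ f : Y →ₗ[RG] ML, ∀ y, f y = 0 ↔ ∀ a ∈ A, p a y = 0 := by
    intro A hA
    have hp1 := pcomp_adm A.subtype (LinearMap.id : Y →ₗ[RG] Y) (LinearMap.id : MD →ₗ[RG] MD) hp
    have hntA : Nontrivial A := IsSimpleModule.nontrivial RG A
    have hfT : Finite (Y ⧸ kR hp1 ⊥) := Finite.of_surjective _ (Submodule.mkQ_surjective _)
    have hmem : ∀ y, y ∈ kR hp1 ⊥ ↔ ∀ a ∈ A, p a y = 0 := by
      intro y
      rw [mem_kR]
      constructor
      · intro h a ha
        exact (Submodule.mem_bot _).1 (h ⟨a, ha⟩)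
      · intro h a
        exact (Submodule.mem_bot _).2 (h a a.2)
    have hne : Nontrivial (Y ⧸ kR hp1 ⊥) := by
      rw [Submodule.Quotient.nontrivial_iff]
      intro htop
      obtain ⟨x, hx⟩ := exists_ne (0 : A)
      apply hx
      apply Subtype.ext
      apply hL
      intro y
      have : y ∈ kR hp1 ⊥ := by rw [htop]; exact Submodule.mem_top
      exact (hmem y).1 this x x.2
    obtain ⟨a, b, m, hm, ⟨α⟩, ⟨β⟩⟩ := ma_uc' h1 h3 h9 hA (fX.sub A) (fY.quot _) .d (h7 .d)
      (maR hp1) (maR_adm hp1) (maR_perfR hp1)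
    have hs : IsSimpleModule RG (Y ⧸ kR hp1 ⊥) := by
      have := h7 b
      exact IsSimpleModule.congr β
    obtain ⟨f, hf, hk⟩ := hY _ (isSimpleModule_iff_isCoatom.1 hs)
    cases hm with
    | vl =>
      refine ⟨⟨α⟩, f, fun y => ?_⟩
      rw [← hmem, ← hk]
      exact LinearMap.mem_ker.symm
    | lv =>
      exfalso
      have e : Md .v ≃ₗ[RG] Md .l := β.symm.trans
        ((Submodule.quotEquivOfEq _ _ hk.symm).trans (f.quotKerEquivOfSurjective hf))
      exact absurd (ma_noiso h8 h7 e) (by decide)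
  -- `X` is semisimple
  have hss : sSup {A : Submodule RG X | IsSimpleModule RG A} = ⊤ := by
    by_contra hne
    obtain ⟨N, hN, hSN⟩ := (eq_top_or_exists_le_coatom _).resolve_left hne
    obtain ⟨f, hf, hk⟩ := hX N hN
    obtain ⟨X', hX'⟩ := Set.Finite.exists_minimal (s := {W : Submodule RG X | ¬ W ≤ N})
      (Set.toFinite _) ⟨⊤, fun h => hN.1 (top_le_iff.1 h)⟩
    obtain ⟨hX'N, hX'min⟩ := hX'
    have hq'0 : f.comp X'.subtype ≠ 0 := by
      intro h0
      apply hX'N
      intro x hx
      rw [← hk]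
      exact LinearMap.congr_fun h0 ⟨x, hx⟩
    have hsV : IsSimpleModule RG MV := h7 .v
    have hq's : Function.Surjective (f.comp X'.subtype) := LinearMap.surjective_of_ne_zero hq'0
    have hq'v : ∀ x : X', f.comp X'.subtype x = f x := fun _ => rfl
    have hloc : ∀ P : Submodule RG X', P ≠ ⊤ → P ≤ LinearMap.ker (f.comp X'.subtype) := by
      intro P hP x hx
      by_contra hxk
      apply hP
      have h1 : ¬ P.map X'.subtype ≤ N := by
        intro hle
        apply hxk
        have h3 : (x : X) ∈ N := hle ⟨x, hx, rfl⟩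
        rw [← hk] at h3
        exact h3
      have h2 := hX'min h1 (Submodule.map_subtype_le X' P)
      rw [eq_top_iff]
      intro z _
      obtain ⟨w, hw, hwz⟩ := h2 z.2
      have h3 : w = z := Subtype.ext hwz
      rwa [← h3]
    have hker : LinearMap.ker (f.comp X'.subtype) ≠ ⊥ := by
      intro hb
      have hs : IsSimpleModule RG X' :=
        IsSimpleModule.congr (LinearEquiv.ofBijective (f.comp X'.subtype)
          ⟨LinearMap.ker_eq_bot.1 hb, hq's⟩)
      exact hX'N ((le_sSup (show X' ∈ {A : Submodule RG X | IsSimpleModule RG A} from hs)).trans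
        hSN)
    obtain ⟨x₁, hx₁, hx₁0⟩ := Submodule.exists_mem_ne_zero_of_ne_bot hker
    obtain ⟨y₁, hy₁⟩ : ∃ y, p x₁ y ≠ 0 := by
      by_contra hcon
      push Not at hcon
      exact hx₁0 (Subtype.ext (hL _ hcon))
    obtain ⟨Y', hY'⟩ := Set.Finite.exists_minimal
      (s := {W : Submodule RG Y | ∃ x : X', f.comp X'.subtype x = 0 ∧ ∃ y ∈ W, p x y ≠ 0})
      (Set.toFinite _) ⟨⊤, x₁, hx₁, y₁, Submodule.mem_top, hy₁⟩
    obtain ⟨⟨x₀, hx₀, y₀, hy₀, hxy₀⟩, hY'min⟩ := hY'
    have hpp := pcomp_adm X'.subtype Y'.subtype (LinearMap.id : MD →ₗ[RG] MD) hp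
    have hKle : kL hpp ⊥ ≤ LinearMap.ker (f.comp X'.subtype) := hloc _ (by
      intro htop
      have h3 : x₀ ∈ kL hpp ⊥ := by rw [htop]; exact Submodule.mem_top
      exact hxy₀ ((Submodule.mem_bot _).1 (h3 ⟨y₀, hy₀⟩)))
    have hfX : Finite (X' ⧸ kL hpp ⊥) := Finite.of_surjective _ (Submodule.mkQ_surjective _)
    have hfY : Finite (Y' ⧸ kR hpp ⊥) := Finite.of_surjective _ (Submodule.mkQ_surjective _)
    refine ma_core h1 h2 h3 h5 h6 h7 h8 h9 ((fX.sub X').quot _) ((fY.sub Y').quot _) (maB hpp)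
      (maB_adm hpp) (maB_perfL hpp) (maB_perfR hpp) ((kL hpp ⊥).liftQ (f.comp X'.subtype) hKle)
      ?_ ?_ ?_ ?_
    · intro m
      obtain ⟨x, hx⟩ := hq's m
      exact ⟨Submodule.Quotient.mk x, hx⟩
    · intro P hP x hx
      obtain ⟨x, rfl⟩ := Submodule.Quotient.mk_surjective _ x
      have h3 : P.comap (kL hpp ⊥).mkQ ≠ ⊤ := by
        intro h
        apply hP
        rw [eq_top_iff]
        intro z _
        obtain ⟨z, rfl⟩ := Submodule.Quotient.mk_surjective _ z
        have h4 : z ∈ P.comap (kL hpp ⊥).mkQ := by rw [h]; exact Submodule.mem_top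
        exact h4
      exact hloc _ h3 hx
    · intro hb
      have h3 : (Submodule.Quotient.mk x₀ : X' ⧸ kL hpp ⊥) ∈
          LinearMap.ker ((kL hpp ⊥).liftQ (f.comp X'.subtype) hKle) := hx₀
      rw [hb, Submodule.mem_bot, Submodule.Quotient.mk_eq_zero] at h3
      exact hxy₀ ((Submodule.mem_bot _).1 (h3 ⟨y₀, hy₀⟩))
    · rintro P ⟨x, hx, y, hy, hxy⟩
      obtain ⟨x, rfl⟩ := Submodule.Quotient.mk_surjective _ x
      obtain ⟨y, rfl⟩ := Submodule.Quotient.mk_surjective _ y
      rw [maB_mk] at hxy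
      have h3 : Y' ≤ (P.comap (kR hpp ⊥).mkQ).map Y'.subtype :=
        hY'min ⟨x, hx, y, ⟨y, hy, rfl⟩, hxy⟩ (Submodule.map_subtype_le _ _)
      rw [eq_top_iff]
      intro z _
      obtain ⟨z, rfl⟩ := Submodule.Quotient.mk_surjective _ z
      obtain ⟨w, hw, hwz⟩ := h3 z.2
      have h4 : w = z := Subtype.ext hwz
      rw [← h4]
      exact hw
  have hsm : IsSemisimpleModule RG X := IsSemisimpleModule.of_sSup_simples_eq_top hss
  constructor
  · intro x hx
    by_contra hx0
    have hnt : Nontrivial (Submodule.span RG {x}) := by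
      rw [Submodule.nontrivial_iff_ne_bot, Ne, Submodule.span_singleton_eq_bot]
      exact hx0
    obtain ⟨B, hB⟩ := ma_exists_simple (Submodule.span RG {x})
    have e : B.map (Submodule.span RG {x}).subtype ≃ₗ[RG] B := (Submodule.equivMapOfInjective _
        (Submodule.injective_subtype _) B).symm
    have hA : IsSimpleModule RG (B.map (Submodule.span RG {x}).subtype) :=
      IsSimpleModule.congr (N := ↥B) e
    have hAle : B.map (Submodule.span RG {x}).subtype ≤ Submodule.span RG {x} :=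
      Submodule.map_subtype_le _ _
    generalize B.map (Submodule.span RG {x}).subtype = A at hA hAle
    obtain ⟨C, hC⟩ := exists_isCompl A
    obtain ⟨⟨α⟩, -⟩ := step1 A hA
    have h3 := hx (α.toLinearMap.comp (A.projectionOnto C hC))
    have h4 : A.projectionOnto C hC x = 0 := (LinearEquiv.map_eq_zero_iff α).1 h3
    have h5 : x ∈ C := (Submodule.projectionOnto_apply_eq_zero_iff hC).1 h4
    have h6 : A ≤ C := hAle.trans ((Submodule.span_singleton_le_iff_mem x C).2 h5)
    have h7 : A = ⊥ := by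
      rw [eq_bot_iff, ← hC.inf_eq_bot]
      exact le_inf le_rfl h6
    exact (isSimpleModule_iff_isAtom.1 hA).1 h7
  · intro y hy
    have hp5 := pcomp_adm (LinearMap.id : X →ₗ[RG] X) (rj ML Y).subtype
      (LinearMap.id : MD →ₗ[RG] MD) hp
    have htop : kL hp5 ⊥ = ⊤ := by
      rw [← top_le_iff, ← hss]
      apply sSup_le
      intro A hA a ha z
      obtain ⟨-, g, hg⟩ := step1 A hA
      exact (Submodule.mem_bot _).2 ((hg z).1 (mem_rj.1 z.2 g) a ha)
    apply hR
    intro x
    have h3 : x ∈ kL hp5 ⊥ := by rw [htop]; exact Submodule.mem_top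
    exact (Submodule.mem_bot _).1 (h3 ⟨y, mem_rj.2 hy⟩)

end Pool.Agent.A8
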