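import Pool.Agent.Helper89.A8.Stmts
import Pool.Agent.Helper89.A8.GTools

/-!
# Block A8-G09 (MP_93c1ff): quotients of commutator subgroups are small

Proof: helper11.
-/

set_option autoImplicit false

namespace Pool.Agent.A8

open scoped commutatorElement

theorem tb_not_le_comm {G : Type*} [Group G] [Finite G] {K X : Subgroup G} (hK : IsPGroup 2 K)
    (hXK : X ≤ K) (hne : X ≠ ⊥) : ¬ X ≤ ⁅X, K⁆ := by
  intro hle
  have h0 : Group.IsNilpotent K := hK.isNilpotent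
  obtain ⟨n, hn⟩ := (Subgroup.isNilpotent_iff_lowerCentralSeries K).1 h0
  have key : ∀ m : ℕ, X ≤ Subgroup.lowerCentralSeries K m := by
    intro m
    induction m with
    | zero => exact hXK
    | succ m ih =>
      rw [Subgroup.lowerCentralSeries_succ]
      exact hle.trans (Subgroup.commutator_mono ih le_rfl)
  have h := key n
  rw [hn] at h
  exact hne (le_bot_iff.1 h)

section
variable {G : Type} [Group G] {π : G →* Gam} {X Y : Subgroup G}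
variable {M : Type*} [AddCommGroup M] [Module RG M] {χ : G → M}

theorem tb_comm_mem {x y : G} (hx : x ∈ X) (hy : y ∈ Y) : ⁅x, y⁆ ∈ ⁅X, Y⁆ :=
  Subgroup.commutator_mem_commutator hx hy

/-- bimultiplicativity in the first variable -/
theorem tb_mul_left (hXn : X.Normal) (hXK : X ≤ π.ker) (hYn : Y.Normal) (h : HomOn π ⁅X, Y⁆ χ)
    {x x' y : G} (hx : x ∈ X) (hx' : x' ∈ X) (hy : y ∈ Y) :
    χ ⁅x * x', y⁆ = χ ⁅x, y⁆ + χ ⁅x', y⁆ := by
  have e : ⁅x * x', y⁆ = (x * ⁅x', y⁆ * x⁻¹) * ⁅x, y⁆ := by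
    simp only [commutatorElement_def]
    group
  have hn : (⁅X, Y⁆ : Subgroup G).Normal := by
    have := hXn
    have := hYn
    infer_instance
  rw [e, h.mul _ (hn.conj_mem _ (tb_comm_mem hx' hy) x) _ (tb_comm_mem hx hy),
    h.conj_ker (hXK hx) (tb_comm_mem hx' hy), add_comm]

/-- the values on conjugates of pairs -/
theorem tb_conj (h : HomOn π ⁅X, Y⁆ χ) (g : G) {x y : G} (hx : x ∈ X) (hy : y ∈ Y) :
    χ ⁅g * x * g⁻¹, g * y * g⁻¹⁆ = act (π g) (χ ⁅x, y⁆) := by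
  rw [← h.conj g _ (tb_comm_mem hx hy)]
  congr 1
  simp only [commutatorElement_def]
  group

theorem tb_inv_left (hXn : X.Normal) (hXK : X ≤ π.ker) (hYn : Y.Normal) (h : HomOn π ⁅X, Y⁆ χ)
    {x y : G} (hx : x ∈ X) (hy : y ∈ Y) : χ ⁅x⁻¹, y⁆ = χ ⁅x, y⁆ := by
  have h1 := tb_mul_left hXn hXK hYn h hx (X.inv_mem hx) hy
  rw [mul_inv_cancel, commutatorElement_one_left, h.map_one] at h1
  rw [← neg_eq (χ ⁅x, y⁆)]
  exact (neg_eq_of_add_eq_zero_right h1.symm).symm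

/-- the left kernel of the commutator pairing -/
def tbKer (hXn : X.Normal) (hXK : X ≤ π.ker) (hYn : Y.Normal) (h : HomOn π ⁅X, Y⁆ χ) :
    Subgroup G where
  carrier := {x | x ∈ X ∧ ∀ y ∈ Y, χ ⁅x, y⁆ = 0}
  one_mem' := ⟨X.one_mem, fun y hy => by rw [commutatorElement_one_left, h.map_one]⟩
  mul_mem' := by
    rintro a b ⟨ha, ha'⟩ ⟨hb, hb'⟩
    exact ⟨X.mul_mem ha hb, fun y hy => by
      rw [tb_mul_left hXn hXK hYn h ha hb hy, ha' y hy, hb' y hy, add_zero]⟩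
  inv_mem' := by
    rintro a ⟨ha, ha'⟩
    exact ⟨X.inv_mem ha, fun y hy => by rw [tb_inv_left hXn hXK hYn h ha hy, ha' y hy]⟩

theorem tbKer_normal (hXn : X.Normal) (hXK : X ≤ π.ker) (hYn : Y.Normal)
    (h : HomOn π ⁅X, Y⁆ χ) : (tbKer hXn hXK hYn h).Normal := by
  constructor
  rintro x ⟨hx, hx'⟩ g
  refine ⟨hXn.conj_mem x hx g, fun y hy => ?_⟩
  have hy' : g⁻¹ * y * g ∈ Y := by simpa using hYn.conj_mem y hy g⁻¹
  have e : y = g * (g⁻¹ * y * g) * g⁻¹ := by group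
  rw [e, tb_conj h g hx hy', hx' _ hy', act_zero]

end

/-- preimage of a submodule -/
def tbPre {G : Type} [Group G] {π : G →* Gam} {X : Subgroup G} {M : Type*} [AddCommGroup M]
    [Module RG M] {φ : G → M} (h : HomOn π X φ) (S : Submodule RG M) : Subgroup G where
  carrier := {x | x ∈ X ∧ φ x ∈ S}
  one_mem' := ⟨X.one_mem, by rw [h.map_one]; exact S.zero_mem⟩
  mul_mem' := by
    rintro a b ⟨ha, ha'⟩ ⟨hb, hb'⟩
    exact ⟨X.mul_mem ha hb, by rw [h.mul a ha b hb]; exact S.add_mem ha' hb'⟩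
  inv_mem' := by
    rintro a ⟨ha, ha'⟩
    exact ⟨X.inv_mem ha, by rw [h.map_inv ha]; exact ha'⟩

theorem tbPre_normal {G : Type} [Group G] {π : G →* Gam} {X : Subgroup G} {M : Type*}
    [AddCommGroup M] [Module RG M] {φ : G → M} (h : HomOn π X φ) (hX : X.Normal)
    (S : Submodule RG M) : (tbPre h S).Normal := by
  constructor
  rintro x ⟨hx, hx'⟩ g
  exact ⟨hX.conj_mem x hx g, by rw [h.conj g x hx]; exact act_mem _ hx'⟩

/-- simplicity of the image -/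
theorem tb_simple {G : Type} [Group G] {π : G →* Gam} {X : Subgroup G} {M : Type*}
    [AddCommGroup M] [Module RG M] {φ : G → M} (h : HomOn π X φ) (hX : X.Normal)
    (hs : ∀ m, ∃ x ∈ X, φ x = m) (hne : ∃ x ∈ X, φ x ≠ 0)
    (hW : ∀ W : Subgroup G, W.Normal → W ≤ X → W ≠ X → ∀ x ∈ W, φ x = 0) :
    IsSimpleModule RG M := by
  have hnt : Nontrivial (Submodule RG M) := by
    obtain ⟨x, hx, hx0⟩ := hne
    refine ⟨⊥, ⊤, fun he => hx0 ?_⟩
    have : φ x ∈ (⊤ : Submodule RG M) := Submodule.mem_top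
    rw [← he] at this
    exact (Submodule.mem_bot _).1 this
  have hso : IsSimpleOrder (Submodule RG M) :=
    { toNontrivial := hnt
      eq_bot_or_eq_top := fun S => by
        by_cases he : tbPre h S = X
        · right
          rw [eq_top_iff]
          intro m _
          obtain ⟨x, hx, rfl⟩ := hs m
          rw [← he] at hx
          exact hx.2
        · left
          rw [eq_bot_iff]
          intro m hm
          obtain ⟨x, hx, rfl⟩ := hs m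
          rw [Submodule.mem_bot]
          exact hW _ (tbPre_normal h hX S) (fun y hy => hy.1) he x ⟨hx, hm⟩ }
  exact (isSimpleModule_iff RG M).2 hso

theorem bTB (h1 : S_SIMQ) (h2 : S_PAIR) (h3 : S_UNIV) : S_TB := by
  intro G _ _ π hπ X Y T hX hY hT hXK hYK hXY
  have hC : (⁅X, Y⁆ : Subgroup G).Normal := by
    have := hX
    have := hY
    infer_instance
  have hCK : ⁅X, Y⁆ ≤ π.ker := by
    have := hX
    exact (Subgroup.commutator_le_left X Y).trans hXK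
  -- `N` maximal
  obtain ⟨N, hN⟩ := Set.Finite.exists_maximal
    (s := {N : Subgroup G | N.Normal ∧ ⁅X, Y⁆ ⊓ T ≤ N ∧ N < ⁅X, Y⁆}) (Set.toFinite _)
    ⟨⁅X, Y⁆ ⊓ T, by have := hC; have := hT; exact inferInstanceAs (Subgroup.Normal _), le_rfl,
      lt_of_le_of_ne inf_le_left fun he => hXY (by rw [← he]; exact inf_le_right)⟩
  obtain ⟨⟨hNn, hNT, hNC⟩, hmax⟩ := hN
  obtain ⟨M, _, _, _, χ, hχ, hMf, hMs⟩ := h1 G π hπ ⁅X, Y⁆ N hC hNn hNC hCK (by
    intro W hWn hNW hWC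
    by_cases he : W = ⁅X, Y⁆
    · exact Or.inr he
    · left
      exact le_antisymm (hmax ⟨hWn, hNT.trans hNW, lt_of_le_of_ne hWC he⟩ hNW) hNW)
  have hnotN : ¬ ⁅X, Y⁆ ≤ N := fun hle => hNC.not_ge hle
  -- `X'` minimal
  obtain ⟨X', hX'⟩ := Set.Finite.exists_minimal
    (s := {D : Subgroup G | D.Normal ∧ D ≤ X ∧ ¬ ⁅D, Y⁆ ≤ N}) (Set.toFinite _)
    ⟨X, hX, le_rfl, hnotN⟩
  obtain ⟨⟨hX'n, hX'X, hX'N⟩, hX'min⟩ := hX'
  obtain ⟨Y', hY'⟩ := Set.Finite.exists_minimal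
    (s := {D : Subgroup G | D.Normal ∧ D ≤ Y ∧ ¬ ⁅X', D⁆ ≤ N}) (Set.toFinite _)
    ⟨Y, hY, le_rfl, hX'N⟩
  obtain ⟨⟨hY'n, hY'Y, hY'N⟩, hY'min⟩ := hY'
  have hX'K := hX'X.trans hXK
  have hY'K := hY'Y.trans hYK
  have hsub : ⁅X', Y'⁆ ≤ ⁅X, Y⁆ := Subgroup.commutator_mono hX'X hY'Y
  have hχ' : HomOn π ⁅X', Y'⁆ χ := hχ.toHomOn.mono hsub
  have hχ0 : ∀ z ∈ ⁅X, Y⁆, χ z = 0 ↔ z ∈ N := hχ.ker
  -- proper normal subgroups are orthogonal
  have hX'W : ∀ W : Subgroup G, W.Normal → W ≤ X' → W ≠ X' → ∀ x ∈ W, ∀ y ∈ Y', χ ⁅x, y⁆ = 0 := by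
    intro W hWn hWX hWne x hx y hy
    have : ⁅W, Y⁆ ≤ N := by
      by_contra hcon
      exact hWne (le_antisymm hWX (hX'min ⟨hWn, hWX.trans hX'X, hcon⟩ hWX))
    rw [hχ0 _ (hsub (tb_comm_mem (hWX hx) hy))]
    exact this (tb_comm_mem hx (hY'Y hy))
  have hY'W : ∀ W : Subgroup G, W.Normal → W ≤ Y' → W ≠ Y' → ∀ x ∈ X', ∀ y ∈ W, χ ⁅x, y⁆ = 0 := by
    intro W hWn hWY hWne x hx y hy
    have : ⁅X', W⁆ ≤ N := by
      by_contra hcon
      exact hWne (le_antisymm hWY (hY'min ⟨hWn, hWY.trans hY'Y, hcon⟩ hWY))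
    rw [hχ0 _ (hsub (tb_comm_mem hx (hWY hy)))]
    exact this (tb_comm_mem hx hy)
  obtain ⟨x₀, hx₀, y₀, hy₀, hxy₀⟩ : ∃ x ∈ X', ∃ y ∈ Y', χ ⁅x, y⁆ ≠ 0 := by
    by_contra hcon
    push Not at hcon
    apply hY'N
    rw [Subgroup.commutator_le]
    intro x hx y hy
    rw [← hχ0 _ (hsub (tb_comm_mem hx hy))]
    exact hcon x hx y hy
  -- the action of `K`
  have hX'ne : X' ≠ ⊥ := by
    rintro rfl
    apply hX'N
    rw [Subgroup.commutator_bot_left]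
    exact bot_le
  have hcK : ∀ x ∈ X', ∀ k ∈ π.ker, ∀ y ∈ Y', χ ⁅⁅k, x⁆, y⁆ = 0 := by
    have hn : (⁅π.ker, X'⁆ : Subgroup G).Normal := by
      have := hX'n
      infer_instance
    have hle : ⁅π.ker, X'⁆ ≤ X' := by
      have := hX'n
      exact Subgroup.commutator_le_right _ _
    intro x hx k hk y hy
    refine hX'W _ hn hle (fun he => ?_) _ (tb_comm_mem hk hx) y hy
    refine tb_not_le_comm hπ.ker2 hX'K hX'ne ?_
    rw [Subgroup.commutator_comm]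
    exact he.ge
  obtain ⟨Xb, Yb, _, _, _, _, _, _, φ, ψ, p, hφ, hφs, hψ, hψs, hp, hadm, hpL, hpR, hfX, hfY⟩ :=
    h2 G π hπ X' Y' hX'n hY'n hX'K hY'K M χ hχ' (by
      intro x hx y hy k hk
      have hkx : ⁅k, x⁆ ∈ X' := by
        have := hX'n
        exact Subgroup.commutator_le_right π.ker X' (tb_comm_mem hk hx)
      have e : k * x * k⁻¹ = ⁅k, x⁆ * x := by
        rw [commutatorElement_def]
        group
      rw [e, tb_mul_left hX'n hX'K hY'n hχ' hkx hx hy, hcK x hx k hk y hy, zero_add])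
  have hφne : φ x₀ ≠ 0 := by
    intro h0
    apply hxy₀
    rw [← hp x₀ hx₀ y₀ hy₀, h0, map_zero, AddMonoidHom.zero_apply]
  have hψne : ψ y₀ ≠ 0 := by
    intro h0
    apply hxy₀
    rw [← hp x₀ hx₀ y₀ hy₀, h0, map_zero]
  have hXs : IsSimpleModule RG Xb := by
    refine tb_simple hφ hX'n hφs ⟨x₀, hx₀, hφne⟩ fun W hWn hWX hWne x hx => ?_
    apply hpL
    intro m
    obtain ⟨y, hy, rfl⟩ := hψs m
    rw [hp x (hWX hx) y hy]
    exact hX'W W hWn hWX hWne x hx y hy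
  have hYs : IsSimpleModule RG Yb := by
    refine tb_simple hψ hY'n hψs ⟨y₀, hy₀, hψne⟩ fun W hWn hWY hWne y hy => ?_
    apply hpR
    intro m
    obtain ⟨x, hx, rfl⟩ := hφs m
    rw [hp x hx y (hWY hy)]
    exact hY'W W hWn hWY hWne x hx y hy
  obtain ⟨a, b, c, m, α, β, γ, -, -⟩ := h3 Xb Yb M hXs hYs hMs hfX hfY hMf p hadm
    ⟨φ x₀, ψ y₀, by rw [hp x₀ hx₀ y₀ hy₀]; exact hxy₀⟩
  refine ⟨c, fun x => γ (χ x), hχ.toHomOn.comp (γ : M →ₗ[RG] Md c), fun z hz hzT => ?_,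
    x₀, hX'X hx₀, y₀, hY'Y hy₀, fun h0 => hxy₀ ?_⟩
  · have : χ z = 0 := (hχ0 z hz).2 (hNT ⟨hz, hzT⟩)
    show γ (χ z) = 0
    rw [this, map_zero]
  · have h0' : γ (χ ⁅x₀, y₀⁆) = 0 := h0
    rwa [LinearEquiv.map_eq_zero_iff] at h0'

end Pool.Agent.A8
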