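import Pool.Agent.Helper89.A8.Stmts
import Pool.Agent.Helper89.A8.GTools

/-!
# Block A8-M10 (MP_93c1ff): admissible pairings of simple modules are standard

Proof: helper11.
-/

set_option autoImplicit false

namespace Pool.Agent.A8

section univ
variable {X Y S X' Y' : Type*} [AddCommGroup X] [Module RG X] [AddCommGroup Y] [Module RG Y]
  [AddCommGroup S] [Module RG S] [AddCommGroup X'] [Module RG X'] [AddCommGroup Y'] [Module RG Y']

theorem univ_nrm4_map (f : X' →ₗ[RG] X) (g : Gam) (x : X') : nrm4 g (f x) = f (nrm4 g x) := by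
  simp only [nrm4, map_add, map_act]

/-- the flipped pairing is admissible -/
theorem univ_adm_flip {p : X →+ Y →+ S} (h : Adm p) : Adm p.flip where
  equiv g x y := by
    rw [AddMonoidHom.flip_apply, AddMonoidHom.flip_apply, h.equiv]
  fix g hg x y hx hy := by
    rw [AddMonoidHom.flip_apply]
    exact h.fix g hg y x hy hx
  four g hg x y := by
    rw [AddMonoidHom.flip_apply]
    exact h.four g hg y x

/-- the pulled back pairing -/
noncomputable def univPull (p : X →+ Y →+ S) (f : X' →ₗ[RG] X) (h : Y' →ₗ[RG] Y) :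
    X' →+ Y' →+ S :=
  (p.comp f.toAddMonoidHom).compl₂ h.toAddMonoidHom

theorem univPull_apply (p : X →+ Y →+ S) (f : X' →ₗ[RG] X) (h : Y' →ₗ[RG] Y) (x : X') (y : Y') :
    univPull p f h x y = p (f x) (h y) := rfl

theorem univ_adm_pull {p : X →+ Y →+ S} (hp : Adm p) (f : X' →ₗ[RG] X) (h : Y' →ₗ[RG] Y) :
    Adm (univPull p f h) where
  equiv g x y := by
    rw [univPull_apply, univPull_apply, map_act, map_act, hp.equiv]
  fix g hg x y hx hy := by
    rw [univPull_apply]
    refine hp.fix g hg _ _ ?_ ?_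
    · rw [← map_act, hx]
    · rw [← map_act, hy]
  four g hg x y := by
    rw [univPull_apply, ← univ_nrm4_map, ← univ_nrm4_map]
    exact hp.four g hg _ _

end univ

theorem bUNIV (h1 : S_BAD) (h2 : S_GG) (h3 : S_SIM) : S_UNIV := by
  intro X Y S _ _ _ _ _ _ _ _ _ hX hY hS fX fY fS p hp hne
  obtain ⟨a, ⟨α⟩⟩ := h1 X Y S hX hY hS fX fY fS p hp hne
  obtain ⟨x₀, y₀, hxy⟩ := hne
  obtain ⟨b, ⟨β⟩⟩ := h1 Y X S hY hX hS fY fX fS p.flip (univ_adm_flip hp)
    ⟨y₀, x₀, by rw [AddMonoidHom.flip_apply]; exact hxy⟩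
  have hP := univ_adm_pull hp (α.symm : Md a →ₗ[RG] X) (β.symm : Md b →ₗ[RG] Y)
  have hval : ∀ x y, p x y = univPull p (α.symm : Md a →ₗ[RG] X) (β.symm : Md b →ₗ[RG] Y)
      (α x) (β y) := by
    intro x y
    rw [univPull_apply]
    simp
  rcases h2 a b S _ hP with h | ⟨c, m, f, hm, hf⟩
  · exact absurd (by rw [hval, h]) hxy
  · have hf0 : f ≠ 0 := by
      rintro rfl
      apply hxy
      rw [hval, hf]
      rfl
    have := h3 c
    have hbij := LinearMap.bijective_of_ne_zero hf0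
    refine ⟨a, b, c, m, α, β, (LinearEquiv.ofBijective f hbij).symm, hm, fun x y => ?_⟩
    rw [hval, hf, LinearEquiv.symm_apply_eq]
    rfl

end Pool.Agent.A8
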